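import Pool.Agent.Work.MP_2cf110_an.Hyp.GenH

/-! # The corona problem with one arbitrary function near every boundary point

The definitions `Hinf`, `Bez`, `Coord`, `BddPot`, `Tame` are in
`Pool/Agent/Work/MP_2cf110_an/Defs.lean`, the definitions `HypFn`, `GenH` in
`Pool/Agent/Work/MP_2cf110_an/Hyp/GenDef.lean`. -/

open Set Metric

namespace Pool.Agent.Results.MP_2cf110_an.GeneratedData

open Pool.Agent.Work.MP_2cf110_an

/-- Let `V` be a bounded open set, `f_1, ..., f_n` bounded and analytic on `V` with
`max |f_j| ≥ δ > 0` on `V`. Assume that every boundary point `c` of `V` has a disc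
`B(c, r)` such that on `V ∩ B(c, r)` all `f_j` belong to the class generated by one arbitrary
bounded analytic function `h`, by all functions `S ∘ Φ` with `Φ` analytic and injective into the
unit disc and `S` bounded and analytic on the unit disc, and by tame functions (injective
functions, uniformly continuous functions, functions with derivative in `L^p` for a `p > 2`, and
more general ones). Then the Bezout equation `∑ f_j g_j = 1` is solvable with bounded analytic
`g_j` on `V`. -/
theorem result (V : Set ℂ) (hV : IsOpen V) (hb : Bornology.IsBounded V) (n : ℕ)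
    (f : Fin n → ℂ → ℂ) (δ : ℝ) (hδ : 0 < δ) (hf : ∀ j, Hinf V (f j))
    (hfδ : ∀ z ∈ V, ∃ j, δ ≤ ‖f j z‖)
    (hloc : ∀ c ∈ frontier V, ∃ r : ℝ, 0 < r ∧ ∃ h : ℂ → ℂ, Hinf (V ∩ ball c r) h ∧
      ∀ j, GenH (V ∩ ball c r) h (f j)) : Bez V f := by
  refine bez_of_genH hV hb hδ hf hfδ fun c hc => ?_
  obtain ⟨r, hr, h⟩ := hloc c hc
  exact ⟨r, hr, h⟩

end Pool.Agent.Results.MP_2cf110_an.GeneratedData
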