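import Pool.Agent.Work.MP_2cf110_an.Hyp.ClsL

/-! # The corona theorem for recursively generated classes of open sets

The definitions are in `Pool/Agent/Work/MP_2cf110_an/`: `BA`, `Sol`, `Cor` in `Hyp/SolDef.lean`,
`Hole` in `Hyp/HoleDef.lean`, `Forelli` in `Hyp/ForDef.lean`, the class `Cls` in
`Hyp/ClsDef.lean`, `Hinf` and `Bez` in `Defs.lean`. -/

open Set Metric

namespace Pool.Agent.Results.MP_2cf110_an.GeneratedDomains

open Pool.Agent.Work.MP_2cf110_an Pool.Agent.Work.MP_2cf110_an.Hyp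

/-- The corona theorem with uniform bounds for the classes `Cls k η N`, and the corona theorem for
every bounded open set which near each of its boundary points belongs to one of these classes. -/
theorem result :
    (∀ (n k N : ℕ) (K δ η : ℝ), 0 < δ → 0 < η → η ≤ 1 → ∃ C : ℝ,
      ∀ (V : Set ℂ) (f : Fin n → ℂ → ℂ), Cls k η N V → BA K V f → Cor δ V f → Sol C V f) ∧
    ∀ V : Set ℂ, IsOpen V → Bornology.IsBounded V →
      (∀ c ∈ frontier V, ∃ r > 0, ∃ (k N : ℕ) (η : ℝ), 0 < η ∧ η ≤ 1 ∧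
        Cls k η N (V ∩ ball c r)) →
      ∀ (n : ℕ) (f : Fin n → ℂ → ℂ) (δ : ℝ), 0 < δ → (∀ j, Hinf V (f j)) → Cor δ V f →
        Bez V f :=
  ⟨fun n k N _ _ _ hδ hη hη1 => cls_sol n k N hδ hη hη1,
    fun _ hV hb h _ _ _ hδ hf hc => cls_loc hV hb h hδ hf hc⟩

end Pool.Agent.Results.MP_2cf110_an.GeneratedDomains
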