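import Pool.Agent.Work.MP_2cf110_an.Hyp.LocMix

/-! # The corona problem is local at the hyperbolic scale and at the scale of a point

The definitions `BA`, `Sol` are in `Pool/Agent/Work/MP_2cf110_an/Hyp/SolDef.lean`: `BA K W f` says
that all `f j` are analytic on `W` and bounded by `K`, `Sol C W f` says that
`∑ j, f j * g j = 1` on `W` for some analytic `g j` on `W` bounded by `C`. -/

open Set Metric

namespace Pool.Agent.Results.MP_2cf110_an.HypLocalization

open Pool.Agent.Work.MP_2cf110_an.Hyp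

/-- For all `m`, `l`, `n`, `r_1, ..., r_m, ρ_1, ..., ρ_l ∈ (0, 1]`, `K`, `M` there is a constant `C`
with the following property. Let `V` be an open set, `f_1, ..., f_n` analytic on `V` and bounded by
`K`, `P_1, ..., P_m` injective analytic maps from `V` to the unit disc and `Q_1, ..., Q_l` injective
analytic maps from `V` to the punctured unit disc. If for all points `a_1, ..., a_m` of the unit
disc and `b_1, ..., b_l` of the punctured unit disc the Bezout equation `∑ f_j g_j = 1` has an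
analytic solution bounded by `M` on the set of all `z ∈ V` with `|P_i(z) - a_i| < r_i (1 - |a_i|)`
for all `i` and `|Q_i(z) - b_i| < ρ_i |b_i|` for all `i`, then it has an analytic solution bounded
by `C` on `V`. -/
theorem result (m l n : ℕ) (r : Fin m → ℝ) (ρ : Fin l → ℝ) (K M : ℝ) (hr : ∀ i, 0 < r i)
    (hr1 : ∀ i, r i ≤ 1) (hρ : ∀ i, 0 < ρ i) (hρ1 : ∀ i, ρ i ≤ 1) :
    ∃ C : ℝ, ∀ (V : Set ℂ) (f : Fin n → ℂ → ℂ) (P : Fin m → ℂ → ℂ) (Q : Fin l → ℂ → ℂ),
    IsOpen V → BA K V f →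
    (∀ i, DifferentiableOn ℂ (P i) V ∧ InjOn (P i) V ∧ ∀ z ∈ V, ‖P i z‖ < 1) →
    (∀ i, DifferentiableOn ℂ (Q i) V ∧ InjOn (Q i) V ∧ ∀ z ∈ V, Q i z ≠ 0 ∧ ‖Q i z‖ < 1) →
    (∀ (a : Fin m → ℂ) (b : Fin l → ℂ), (∀ i, ‖a i‖ < 1) → (∀ i, b i ≠ 0 ∧ ‖b i‖ < 1) →
      Sol M {z ∈ V | (∀ i, ‖P i z - a i‖ < r i * (1 - ‖a i‖)) ∧
        ∀ i, ‖Q i z - b i‖ < ρ i * ‖b i‖} f) → Sol C V f :=
  loc_mix m l n hr hr1 hρ hρ1

end Pool.Agent.Results.MP_2cf110_an.HypLocalization
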