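import Pool.Agent.Work.MP_2cf110_an.Hyp.JointH

/-! # The corona problem is local along tame functions and functions S ∘ Φ

The definitions `Hinf`, `Bez`, `Coord`, `BddPot`, `Tame` are in
`Pool/Agent/Work/MP_2cf110_an/Defs.lean`, the definition `HypFn` in
`Pool/Agent/Work/MP_2cf110_an/Hyp/GenDef.lean`. -/

open Set Metric

namespace Pool.Agent.Results.MP_2cf110_an.JointLocalization

open Pool.Agent.Work.MP_2cf110_an

/-- Let `V` be an open set, `s = (s_1, ..., s_m)` a tuple of functions on `V`, each of which is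
tame or of the form `S ∘ Φ` with `Φ` analytic and injective from `V` into the unit disc and `S`
bounded and analytic on the unit disc, and
`f_1, ..., f_n` bounded and analytic on `V`. If every point `l` of the closure of `s(V)` in `ℂ^m`
has a `t > 0` such that the Bezout equation for the `f_j` is solvable in bounded analytic
functions on `{z ∈ V : |s_i(z) - l_i| < t for all i}`, then it is solvable on `V`. -/
theorem result (V : Set ℂ) (hV : IsOpen V) (m : ℕ) (s : Fin m → ℂ → ℂ)
    (hs : ∀ i, Coord V (s i) ∨ Tame V (s i) ∨ HypFn V (s i)) (n : ℕ) (f : Fin n → ℂ → ℂ)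
    (hf : ∀ j, Hinf V (f j))
    (hloc : ∀ l ∈ closure ((fun z i => s i z) '' V : Set (Fin m → ℂ)),
      ∃ t : ℝ, 0 < t ∧ Bez {z ∈ V | ∀ i, ‖s i z - l i‖ < t} f) : Bez V f := by
  refine bez_of_jointH hV (s := s) (fun i => ?_) hf fun l hl => ?_
  · rcases hs i with h | h | h
    exacts [Or.inl (tame_of_coord hV h), Or.inl h, Or.inr h]
  · obtain ⟨t, ht, h⟩ := hloc l hl
    exact ⟨t, ht, h⟩

end Pool.Agent.Results.MP_2cf110_an.JointLocalization
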